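import Mathlib
import Pool.Agent.X333.DC.FimT

/-!
MP_6f117a_ag, Q1: the four notions of hyperbolicity for the finite images of projective varieties
given by nested sums of high powers, and of their covers.

`V = {F = 0}` in `ℙⁿ` is a projective variety whose equations are nested sums of high powers of
linear forms, or nested sums of high powers of monomials (`HighTowers`,
`Pool/Agent/TH710/ND/Proj.lean`). We consider the images `X = {Φ = 0}` of `V`, and of the finite
covers `W = {Ψ = 0}` of subvarieties of `V`, under finite morphisms `G` with fibres of at most `r`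
points. No assumption is made on the singularities and the branch loci.

Algebraically hyperbolic: `AlgHyperbolic` (`Pool/Agent/W603/CX/Groupless.lean`), and for curves
`C' → X` with a covering `C' → C` of degree at most `ρ`, with the genus of `C` in the bound,
`CoverHyperbolic` (`Pool/Agent/Y221/AH/Top.lean`). Bounded: `BoundedOnCurves`. Groupless: there are
no `GmCurve`s (nonconstant morphisms from the multiplicative group). All closed subvarieties of
positive dimension are of general type: `AllGeneral`. The same modulo the closed subset given by a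
set `T` of forms: `HypMod`, `BddMod`, `GenMod` (`Pool/Agent/X333/DC/FimT.lean`).

`im`, `Mor`, `Onto`, `FibresLe` (`Pool/Agent/Y221/FQ/Defs.lean`), `CovGm`
(`Pool/Agent/X333/DN/Img.lean`), `SubVar`, `SpGm`, `VarPts`, `GeneralType` (`Pool/Agent/W602/GT`).
-/

set_option autoImplicit false

namespace Pool.Agent.Results.MP_6f117a_ag.NestedFiniteImages

open FF Pool.Agent.W602.GT Pool.Agent.Y221.FQ Pool.Agent.TH710.ND Pool.Agent.X333.DN
  Pool.Agent.X333.DC
open Pool.Agent.Y221.AH (CoverHyperbolic)
open Pool.Agent.W603.LV (canDeg)
open Pool.Agent.W603.PV (pht)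
open Pool.Agent.W603.CX (AlgHyperbolic BoundedOnCurves)

/-- Let `V = {F = 0}`, where the forms `F_e` are nested sums with at most `h + 1` levels, on each
level at most `s` summands and one exponent `≥ 8 ρ r (n + 1) (h + 1) (2 s + 1) ^ 5`.

(1) Let `W = {Ψ = 0}` be a projective variety with a morphism `B : W → V` and a surjective morphism
`G : W → X = {Φ = 0}` with fibres of at most `r` points. Let `Δ` be the image under `G` of the
inverse image under `B` of the closure of the union of the images of the nonconstant morphisms from
the multiplicative group to `V`. There is a number `A` such that for all curves `C`, all coverings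
`C' → C` of degree at most `ρ` and all morphisms `f : C' → X` with `f(C')` not in `Δ`, the degree of
`f` is at most `A max (2 g (C) - 2, 0)`. All closed subvarieties of `X` of positive dimension which
are not contained in `Δ` are of general type.

(2) Let `G : V → X = {Φ = 0}` be a surjective morphism with fibres of at most `r` points. Then the
following are equivalent: `X` is algebraically hyperbolic; the same for coverings of degree at most
`ρ` of curves; the degrees of the morphisms from each curve to `X` are bounded; there are no
nonconstant morphisms from the multiplicative group to `X`; all closed subvarieties of `X` of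
positive dimension are of general type; there are no nonconstant morphisms from the multiplicative
group to `V`.

(3) Let `G` be as in (2), and let `T` be any set of forms on `ℙᴹ`. The first five conditions in (2)
are also equivalent modulo the closed subset `Z` of `X` where all forms in `T` vanish (that is, for
the curves, the images of the multiplicative group and the closed subvarieties not contained in
`Z`), and they hold if and only if `G (S) ⊆ Z` for the closure `S` of the union of the images of the
nonconstant morphisms from the multiplicative group to `V`. -/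
theorem result {k : Type} [Field k] [IsAlgClosed k] [CharZero k] {n M : ℕ} {ι μ : Type} [Finite ι]
    {F : ι → MvPolynomial (Fin (n + 1)) k} {Φ : μ → MvPolynomial (Fin (M + 1)) k}
    {s N h r ρ : ℕ} (hF : HighTowers s N h F) (hr : 1 ≤ r) (hρ : 1 ≤ ρ)
    (hN : 8 * (ρ * r * ((n + 1) * ((h + 1) * (2 * s + 1) ^ 5))) ≤ N)
    (hΦ : ∀ e, IsForm (Φ e)) :
    (∀ (m : ℕ) (κ : Type) (Ψ : κ → MvPolynomial (Fin (m + 1)) k)
      (B : Fin (n + 1) → MvPolynomial (Fin (m + 1)) k)
      (G : Fin (M + 1) → MvPolynomial (Fin (m + 1)) k), (∀ e, IsForm (Ψ e)) → Mor Ψ F B →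
      Mor Ψ Φ G → Onto Ψ Φ G → FibresLe Ψ G r →
      (∃ A : ℕ, ∀ (K E : Type) [Field K] [Field E] [Algebra k K] [Algebra k E] [Algebra K E]
        [IsScalarTower k K E] [FiniteDimensional K E] [IsFF k K] [IsFF k E],
        Module.finrank K E ≤ ρ → ∀ f : Fin (M + 1) → E, (∃ j, f j ≠ 0) →
        (∀ e, MvPolynomial.aeval f (Φ e) = 0) → ¬ VarPts k f ⊆ CovGm Ψ F B G →
          pht k f ≤ A * max (canDeg k K) 0) ∧
      ∀ (K : Type) [Field K] [Algebra k K] (w : ℕ) (z : Fin (M + 1) → K), 1 ≤ w →
        SubVar Φ K w z → ¬ VarPts k z ⊆ CovGm Ψ F B G → GeneralType k K w) ∧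
    (∀ G : Fin (M + 1) → MvPolynomial (Fin (n + 1)) k, Mor F Φ G → Onto F Φ G → FibresLe F G r →
      [∃ A : ℕ, AlgHyperbolic A Φ, ∃ A : ℕ, CoverHyperbolic ρ A Φ, BoundedOnCurves Φ,
        ∀ P, ¬ GmCurve Φ P, AllGeneral Φ, ∀ P, ¬ GmCurve F P].TFAE ∧
      ∀ T : Set (MvPolynomial (Fin (M + 1)) k), (∀ H ∈ T, IsForm H) →
        [∃ A : ℕ, HypMod 1 A Φ T, ∃ A : ℕ, HypMod ρ A Φ T, BddMod Φ T,
          ∀ P, GmCurve Φ P → ∀ t : k, t ≠ 0 → ∀ H ∈ T, val (fun i => (P i).eval t) H = 0,
          GenMod Φ T, ∀ x ∈ SpGm F, ∀ H ∈ T, val (im G x) H = 0].TFAE) :=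
  ⟨fun _ _ _ _ _ hΨ hB hG hon hfib => cover_all hΨ hB hG hon hfib hF hr hρ hN,
    fun _ hG hon hfib => ⟨four_tfae hΦ hG hon hfib hF hr hρ hN, fun _ hT =>
      mod_tfae hΦ hG hon hfib hF hr hρ hN hT⟩⟩

end Pool.Agent.Results.MP_6f117a_ag.NestedFiniteImages
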