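import Mathlib
import Pool.Agent.X333.MC.Bound

/-!
MP_6f117a_ag, Q1: the four notions of hyperbolicity for projective varieties given by nested sums
of few high powers of monomials.
-/

set_option autoImplicit false

namespace Pool.Agent.Results.MP_6f117a_ag.NestedMonomialFour

open Pool.Agent.W603.CX Pool.Agent.W602.GT Pool.Agent.TH710.ND Pool.Agent.X333.MC

/-- Let `X` be a projective variety over an algebraically closed field of characteristic zero, given
by forms which are nested sums of few high powers of monomials. Equivalent are: `X` is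
algebraically hyperbolic; the degrees of the morphisms from each smooth projective curve to `X` are
bounded; there are no nonconstant morphisms from the multiplicative group to `X`; all morphisms
`t ↦ (x_0 t ^ b_0 : … : x_n t ^ b_n)` from the multiplicative group to `X` are constant. If the
exponents are large, it is also equivalent that all closed subvarieties of `X` of positive
dimension are of general type. -/
theorem result {k : Type} [Field k] [IsAlgClosed k] [CharZero k] {n : ℕ} {ι : Type}
    {F : ι → MvPolynomial (Fin (n + 1)) k} (hF : ∀ i, IsForm (F i) ∧ MTower (F i)) :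
    [∃ A : ℕ, AlgHyperbolic A F, BoundedOnCurves F, ∀ P, ¬ GmCurve F P,
      OrbitsConstant F].TFAE ∧
    ∀ s N h : ℕ, (∀ i, NestedIn IsMono s N h (F i)) →
      (n + 1) * ((h + 1) * (2 * s + 1) ^ 5) ≤ N →
      [∃ A : ℕ, AlgHyperbolic A F, BoundedOnCurves F, ∀ P, ¬ GmCurve F P, OrbitsConstant F,
        AllGeneralType F].TFAE := by
  have h1 := four_monos (fun i => (hF i).2) (fun i => (hF i).1)
  refine ⟨h1, fun s N h hF' hN => ?_⟩
  obtain ⟨hNb, hN2, hN1⟩ := bnd_le hN
  tfae_have 1 ↔ 2 := h1.out 0 1
  tfae_have 1 ↔ 3 := h1.out 0 2
  tfae_have 1 ↔ 4 := h1.out 0 3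
  tfae_have 3 ↔ 5 := (all_iff (Or.inr fun i => ⟨(hF i).1, hF' i⟩) hNb).symm
  tfae_finish

end Pool.Agent.Results.MP_6f117a_ag.NestedMonomialFour
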