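import Mathlib
import Pool.Agent.X333.PW.Hgt

/-!
MP_6f117a_ag, Q1: the notions of hyperbolicity, relative to closed subsets, for the projective
varieties `X` which are, outside a closed subset `Z`, unions of images of quasi-projective varieties
given by nested sums of high powers.

`X = {Φ = 0}` is a projective variety in `ℙ^M`. For finitely many indices `a` let
`V_a = {F_a = 0, Q_a ≠ 0}` be quasi-projective varieties in projective spaces of any dimensions
`n a`, where the equations `F_a` are nested sums of high powers of linear forms, or nested sums of
high powers of monomials, and `Q_a` is any form, and let `V_a → X` be morphisms given by forms,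
with fibres of at most `r a` points, such that `X \ Z` is contained in the union of their images.
The morphisms need not be finite, proper or dominant, they need not extend to `{F_a = 0}`, and
nothing is assumed on the singularities.

Algebraically hyperbolic, for curves `C' → X` with a covering `C' → C` of degree at most `ρ` and
with the genus of `C` in the bound: `HypMod`; bounded: `BddMod`; all closed subvarieties of positive
dimension are of general type: `GenMod`, all relative to the closed subset where the forms in `T`
vanish (`Pool/Agent/X333/DC/FimT.lean`). `GmCurve` (`Pool/Agent/W602/GT/SpGmDefs.lean`):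
nonconstant morphisms from the multiplicative group.

`Pt`, `MapOn`, `FibLe`, `Covers` (`Pool/Agent/X333/PW/Def.lean`), `HighTowers`
(`Pool/Agent/TH710/ND/Proj.lean`).
-/

set_option autoImplicit false

namespace Pool.Agent.Results.MP_6f117a_ag.PiecewiseNotions

open Pool.Agent.W602.GT Pool.Agent.Y221.FQ Pool.Agent.TH710.ND Pool.Agent.X333.PW
  Pool.Agent.X333.DC

/-- Let `k` be algebraically closed of characteristic `0`, `X = {Φ = 0}` a projective variety in
`ℙ^M`, `T` a set of forms and `Z` the closed subset of `X` where all forms in `T` vanish (`Z` is
empty for `T = {1}`). Suppose that `X \ Z` is contained in the union of the images of finitely many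
quasi-projective varieties `V_a = {F_a = 0, Q_a ≠ 0}` in `ℙ^(n a)` under morphisms `G_a : V_a → X`
with fibres of at most `r a` points, where the forms `F_a` are nested sums with at most `h a + 1`
levels, at most `s a` summands at each, and exponents at least
`8 ρ (r a) (n a + 1) (h a + 1) (2 (s a) + 1) ^ 5`. Then the following are equivalent:

* there is a number `A` such that the degree of `f` is at most `A max (2 g (C) - 2, 0)` for all
  smooth projective curves `C` and all morphisms `f : C → X` with image not in `Z`;
* there is a number `A` such that the same holds for all curves `C'` with a covering `C' → C` of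
  degree at most `ρ` and all morphisms `f : C' → X` with image not in `Z`;
* for each curve `C` the degrees of the morphisms `f : C → X` with image not in `Z` are bounded;
* all nonconstant morphisms from the multiplicative group to `X` have their images in `Z`;
* all closed subvarieties of `X` of positive dimension which are not contained in `Z` are of
  general type. -/
theorem result {k : Type} [Field k] [IsAlgClosed k] [CharZero k] {M : ℕ} {μ : Type}
    {Φ : μ → MvPolynomial (Fin (M + 1)) k} {α : Type} [Finite α]
    {n : α → ℕ} {ι : α → Type} [∀ a, Finite (ι a)]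
    {F : ∀ a, ι a → MvPolynomial (Fin (n a + 1)) k} {Q : ∀ a, MvPolynomial (Fin (n a + 1)) k}
    {G : ∀ a, Fin (M + 1) → MvPolynomial (Fin (n a + 1)) k} {r s N h : α → ℕ} {ρ : ℕ}
    {T : Set (MvPolynomial (Fin (M + 1)) k)} (hΦ : ∀ e, IsForm (Φ e)) (hT : ∀ H ∈ T, IsForm H)
    (hcov : Covers F Q Φ G T) (hG : ∀ a, MapOn (F a) (Q a) Φ (G a))
    (hfib : ∀ a, FibLe (F a) (Q a) (G a) (r a)) (hF : ∀ a, HighTowers (s a) (N a) (h a) (F a))
    (hr : ∀ a, 1 ≤ r a) (hρ : 1 ≤ ρ)
    (hN : ∀ a, 8 * (ρ * r a * ((n a + 1) * ((h a + 1) * (2 * s a + 1) ^ 5))) ≤ N a) :
    [∃ A : ℕ, HypMod 1 A Φ T, ∃ A : ℕ, HypMod ρ A Φ T, BddMod Φ T,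
      ∀ P, GmCurve Φ P → ∀ t : k, t ≠ 0 → ∀ H ∈ T, val (fun i => (P i).eval t) H = 0,
      GenMod Φ T].TFAE :=
  mod_pw hΦ hcov hG hfib hF hr hρ hN hT

end Pool.Agent.Results.MP_6f117a_ag.PiecewiseNotions
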